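import Pool.Agent.HJ.Surj

/-!
The exact strength of Hjorth's hypothesis: it is equivalent to the perfect set property of
coanalytic sets.
-/

open Set MeasureTheory

namespace Pool.Agent.Results.MP_73ea52_lc.ExactStrength

/-- Borel subsets of Baire space. -/
def IsBorel (C : Set (ℕ → ℕ)) : Prop := MeasurableSet[borel (ℕ → ℕ)] C

/-- Boldface `Π¹₁` subsets of Baire space: complements of analytic sets. -/
def Coanalytic (C : Set (ℕ → ℕ)) : Prop := AnalyticSet Cᶜ

/-- Boldface `Σ¹₂` subsets of Baire space: projections of coanalytic subsets of the plane. -/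
def Sigma12 (B : Set (ℕ → ℕ)) : Prop :=
  ∃ P : Set ((ℕ → ℕ) × (ℕ → ℕ)), AnalyticSet Pᶜ ∧ Prod.fst '' P = B

/-- `B` is a continuous image of `C ⊕ D` for every non-Borel coanalytic set `C`. -/
def ImageOfAll (D : Type) [TopologicalSpace D] (B : Set (ℕ → ℕ)) : Prop :=
  ∀ C : Set (ℕ → ℕ), Coanalytic C → ¬ IsBorel C →
    ∃ f : C ⊕ D → (ℕ → ℕ), Continuous f ∧ range f = B

/-- Hjorth's hypothesis: this holds for every uncountable `Σ¹₂` set `B`. -/
def HjorthHyp (D : Type) [TopologicalSpace D] : Prop :=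
  ∀ B : Set (ℕ → ℕ), Sigma12 B → ¬ B.Countable → ImageOfAll D B

/-- `S` contains a nonempty perfect set. -/
def HasPerfect (S : Set (ℕ → ℕ)) : Prop := ∃ P ⊆ S, Perfect P ∧ P.Nonempty

/-- Every uncountable coanalytic set has a nonempty perfect subset. -/
def PSP : Prop := ∀ C : Set (ℕ → ℕ), Coanalytic C → ¬ C.Countable → HasPerfect C

/-- Every nonempty `Σ¹₂` set is a continuous image of every non-Borel coanalytic set. -/
def StrongHyp : Prop :=
  ∀ B C : Set (ℕ → ℕ), Sigma12 B → B.Nonempty → Coanalytic C → ¬ IsBorel C →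
    ∃ f : C → (ℕ → ℕ), Continuous f ∧ range f = B

/-- For a countable discrete space `D` and a `Σ¹₂` set `B₀` with a perfect subset, the following
are equivalent: the perfect set property of coanalytic sets; Hjorth's hypothesis; the instance
`B = B₀` of Hjorth's hypothesis; every nonempty `Σ¹₂` set is a continuous image of every non-Borel
coanalytic set. -/
theorem result (D : Type) [TopologicalSpace D] [DiscreteTopology D] [Countable D]
    (B₀ : Set (ℕ → ℕ)) (h₀ : Sigma12 B₀) (h₁ : HasPerfect B₀) :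
    List.TFAE [PSP, HjorthHyp D, ImageOfAll D B₀, StrongHyp] := by
  have hunc : ¬ B₀.Countable := by
    obtain ⟨h, h2, h3, h4⟩ := MP73ea52.cantor_of_hasPerfect h₁
    exact MP73ea52.not_countable_range_cantor h3 h4
  tfae_have 1 → 4 := fun hP B C hB hne hC hCB => HJ.exists_onto hP hC hCB hB hne
  tfae_have 4 → 2 := by
    intro H B hB hunc C hC hCB
    have hne : B.Nonempty := by
      rw [Set.nonempty_iff_ne_empty]
      rintro rfl
      exact hunc countable_empty
    obtain ⟨F, hF, hr⟩ := H B C hB hne hC hCB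
    obtain ⟨b, hb⟩ := hne
    refine ⟨Sum.elim F fun _ => b, hF.sumElim continuous_const, ?_⟩
    ext z
    constructor
    · rintro ⟨x | x, rfl⟩
      · rw [← hr]; exact ⟨x, rfl⟩
      · exact hb
    · intro hz
      rw [← hr] at hz
      obtain ⟨x, rfl⟩ := hz
      exact ⟨Sum.inl x, rfl⟩
  tfae_have 2 → 3 := fun H => H B₀ h₀ hunc
  tfae_have 3 → 1 := fun H => MP73ea52.psp_of_imageOfAll (D := D) (B := B₀) h₁ H
  tfae_finish

end Pool.Agent.Results.MP_73ea52_lc.ExactStrength
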